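import Pool.Agent.P8H3.KI.Stm

set_option autoImplicit false

/-! Packages SUMI, SURG, KILL of project KI. -/

namespace Pool.Agent.P8H85.KI

open Pool.Agent.P8H3.KI

theorem sumi_aux (T : Manifolds) (ι : Type) (M : ι → T.Obj) (s : Finset ι) :
    ∃ (L : T.Obj) (φ : ∀ i, T.grp (M i) →* T.grp L),
      T.chi L - 2 = ∑ i ∈ s, (T.chi (M i) - 2) ∧ T.sig L = ∑ i ∈ s, T.sig (M i) ∧
      (⨆ i ∈ s, (φ i).range) = ⊤ ∧
      ∀ (H : Type) [Group H] (ψ : ∀ i, T.grp (M i) →* H),
        ∃ Ψ : T.grp L →* H, ∀ i ∈ s, Ψ.comp (φ i) = ψ i := by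
  classical
  induction s using Finset.induction_on with
  | empty =>
    obtain ⟨S, h1, h2, h3⟩ := T.sphere
    refine ⟨S, fun i => 1, by simp [h1], by simp [h2], ?_, fun H _ ψ => ⟨1, by simp⟩⟩
    rw [eq_top_iff]
    intro x _
    rw [Subsingleton.elim x 1]
    exact Subgroup.one_mem _
  | insert a s ha ih =>
    obtain ⟨L, φ, h1, h2, h3, h4⟩ := ih
    obtain ⟨L', g1, g2, ⟨e⟩⟩ := T.sum (M a) L
    let α : T.grp (M a) →* T.grp L' := e.symm.toMonoidHom.comp Monoid.Coprod.inl
    let β : T.grp L →* T.grp L' := e.symm.toMonoidHom.comp Monoid.Coprod.inr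
    let φ' : ∀ i, T.grp (M i) →* T.grp L' := fun i =>
      if h : i = a then h ▸ α else β.comp (φ i)
    have e1 : φ' a = α := dif_pos rfl
    have e2 : ∀ i, i ≠ a → φ' i = β.comp (φ i) := fun i hi => dif_neg hi
    refine ⟨L', φ', ?_, ?_, ?_, ?_⟩
    · rw [Finset.sum_insert ha, ← h1, g1]
      ring
    · rw [Finset.sum_insert ha, ← h2, g2]
    · rw [Finset.iSup_insert, e1]
      have e3 : (⨆ i ∈ s, (φ' i).range) = β.range := by
        calc (⨆ i ∈ s, (φ' i).range) = ⨆ i ∈ s, ((φ i).range).map β := by
              refine iSup_congr fun i => iSup_congr fun hi => ?_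
              rw [e2 i (fun h => ha (h ▸ hi)), MonoidHom.range_comp]
          _ = (⨆ i ∈ s, (φ i).range).map β := by
              rw [Subgroup.map_iSup]
              refine iSup_congr fun i => ?_
              rw [Subgroup.map_iSup]
          _ = β.range := by rw [h3, MonoidHom.range_eq_map]
      rw [e3]
      have e4 : α.range = (Monoid.Coprod.inl : T.grp (M a) →* _).range.map e.symm.toMonoidHom :=
        MonoidHom.range_comp _ _
      have e5 : β.range = (Monoid.Coprod.inr : T.grp L →* _).range.map e.symm.toMonoidHom :=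
        MonoidHom.range_comp _ _
      rw [e4, e5, ← Subgroup.map_sup, Monoid.Coprod.range_inl_sup_range_inr,
        ← MonoidHom.range_eq_map, MonoidHom.range_eq_top]
      exact e.symm.surjective
    · intro H _ ψ
      obtain ⟨Ψ, hΨ⟩ := h4 H ψ
      refine ⟨(Monoid.Coprod.lift (ψ a) Ψ).comp e.toMonoidHom, ?_⟩
      intro i hi
      rw [Finset.mem_insert] at hi
      by_cases hia : i = a
      · subst hia
        rw [e1]
        ext x
        simp [α]
      · rw [e2 i hia]
        have hi' : i ∈ s := hi.resolve_left hia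
        rw [← hΨ i hi']
        ext x
        simp [β]

theorem sumi : S_SUMI := by
  intro T ι _ M
  obtain ⟨L, φ, h1, h2, h3, h4⟩ := sumi_aux T ι M Finset.univ
  refine ⟨L, φ, h1, h2, by simpa using h3, ?_⟩
  intro H _ ψ
  obtain ⟨Ψ, hΨ⟩ := h4 H ψ
  exact ⟨Ψ, fun i => hΨ i (Finset.mem_univ i)⟩

theorem comap_ncl {G K : Type} [Group G] [Group K] (π : G →* K) (hπ : Function.Surjective π)
    (S : Set G) (g : G) (hker : π.ker = Subgroup.normalClosure S) :
    (Subgroup.normalClosure {π g}).comap π = Subgroup.normalClosure (insert g S) := by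
  have e1 : Subgroup.normalClosure {π g} = (Subgroup.normalClosure {g}).map π := by
    rw [Subgroup.map_normalClosure _ _ hπ, Set.image_singleton]
  rw [e1, Subgroup.comap_map_eq, hker]
  apply le_antisymm
  · refine sup_le ?_ ?_
    · refine Subgroup.normalClosure_mono ?_
      intro x hx
      rw [Set.mem_singleton_iff] at hx
      exact Or.inl hx
    · exact Subgroup.normalClosure_mono (Set.subset_insert _ _)
  · refine Subgroup.normalClosure_le_normal ?_
    intro x hx
    rcases hx with hx | hx
    · subst hx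
      exact Subgroup.mem_sup_left (Subgroup.subset_normalClosure rfl)
    · exact Subgroup.mem_sup_right (Subgroup.subset_normalClosure hx)

theorem surg : S_SURG := by
  intro T M m
  induction m with
  | zero =>
    intro r
    refine ⟨M, MonoidHom.id _, Function.surjective_id, ?_, by simp, rfl⟩
    have : Set.range r = ∅ := Set.range_eq_empty r
    rw [this]
    rw [MonoidHom.ker_id]
    symm
    rw [eq_bot_iff]
    exact Subgroup.normalClosure_le_normal (by simp)
  | succ m ih =>
    intro r
    obtain ⟨L, π, h1, h2, h3, h4⟩ := ih (fun i => r i.castSucc)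
    obtain ⟨L', g1, g2, ⟨e⟩⟩ := T.surgery L (π (r (Fin.last m)))
    refine ⟨L', e.symm.toMonoidHom.comp
      ((QuotientGroup.mk' (Subgroup.normalClosure {π (r (Fin.last m))})).comp π), ?_, ?_, ?_, ?_⟩
    · exact e.symm.surjective.comp ((QuotientGroup.mk'_surjective _).comp h1)
    · have e1 : Set.range r = insert (r (Fin.last m)) (Set.range fun i : Fin m => r i.castSucc) := by
        ext x
        simp only [Set.mem_range, Set.mem_insert_iff]
        constructor
        · rintro ⟨i, rfl⟩
          rcases Fin.eq_castSucc_or_eq_last i with ⟨j, rfl⟩ | rfl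
          · exact Or.inr ⟨j, rfl⟩
          · exact Or.inl rfl
        · rintro (rfl | ⟨i, rfl⟩)
          · exact ⟨_, rfl⟩
          · exact ⟨_, rfl⟩
      rw [e1, ← comap_ncl π h1 _ _ h2]
      ext x
      rw [MonoidHom.mem_ker, Subgroup.mem_comap]
      simp
    · rw [g1, h3]
      push_cast
      ring
    · rw [g2, h4]

theorem kill : S_KILL := by
  intro T M n ⟨E⟩
  obtain ⟨f, hf⟩ : ∃ f : Multiplicative (Fin (n + 1) → ℤ) →* Multiplicative (Fin n → ℤ),
      ∀ x i, Multiplicative.toAdd (f x) i = Multiplicative.toAdd x (Fin.castSucc i) :=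
    ⟨AddMonoidHom.toMultiplicative
      { toFun := fun x i => x i.castSucc
        map_zero' := rfl
        map_add' := fun _ _ => rfl }, fun _ _ => rfl⟩
  obtain ⟨u, hu⟩ : ∃ u : Fin (n + 1) → ℤ, u = Pi.single (Fin.last n) 1 := ⟨_, rfl⟩
  have hu1 : ∀ i : Fin n, u i.castSucc = 0 := by
    intro i
    rw [hu, Pi.single_eq_of_ne]
    exact (Fin.castSucc_lt_last i).ne
  have hu2 : u (Fin.last n) = 1 := by rw [hu, Pi.single_eq_same]
  obtain ⟨g, hg⟩ : ∃ g : T.grp M, E g = Multiplicative.ofAdd u :=
    ⟨E.symm (Multiplicative.ofAdd u), E.apply_symm_apply _⟩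
  obtain ⟨L, h1, h2, ⟨e⟩⟩ := T.surgery M g
  refine ⟨L, ?_, h1, h2⟩
  have hF : Function.Surjective (f.comp E.toMonoidHom) := by
    intro y
    refine ⟨E.symm (Multiplicative.ofAdd
      (Fin.snoc (α := fun _ => ℤ) (Multiplicative.toAdd y) 0)), ?_⟩
    apply Multiplicative.toAdd.injective
    funext i
    rw [MonoidHom.comp_apply, hf]
    simp
  have hker : (f.comp E.toMonoidHom).ker = Subgroup.normalClosure {g} := by
    apply le_antisymm
    · intro x hx
      rw [MonoidHom.mem_ker] at hx
      have h3 : ∀ i : Fin n, (Multiplicative.toAdd (E x)) i.castSucc = 0 := by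
        intro i
        rw [← hf (E x) i]
        have : f (E x) = 1 := hx
        rw [this]
        rfl
      have h5 : x = g ^ ((Multiplicative.toAdd (E x)) (Fin.last n)) := by
        apply E.injective
        rw [map_zpow, hg]
        apply Multiplicative.toAdd.injective
        rw [toAdd_zpow, toAdd_ofAdd]
        funext i
        rcases Fin.eq_castSucc_or_eq_last i with ⟨j, rfl⟩ | rfl
        · rw [h3 j, Pi.smul_apply, hu1, smul_zero]
        · rw [Pi.smul_apply, hu2, smul_eq_mul, mul_one]
      have hgm : g ∈ Subgroup.normalClosure {g} :=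
        Subgroup.subset_normalClosure (Set.mem_singleton g)
      rw [h5]
      exact Subgroup.zpow_mem _ hgm _
    · refine Subgroup.normalClosure_le_normal ?_
      intro x hx
      rw [Set.mem_singleton_iff] at hx
      rw [hx, SetLike.mem_coe, MonoidHom.mem_ker]
      apply Multiplicative.toAdd.injective
      funext i
      rw [MonoidHom.comp_apply, hf]
      have : E.toMonoidHom g = Multiplicative.ofAdd u := hg
      rw [this, toAdd_ofAdd, hu1]
      rfl
  exact ⟨e.trans ((QuotientGroup.quotientMulEquivOfEq hker.symm).trans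
    (QuotientGroup.quotientKerEquivOfSurjective _ hF))⟩

end Pool.Agent.P8H85.KI
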